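import Mathlib

set_option autoImplicit false

namespace Pool.Agent.Results.MP_fbe023_nt.LargeQuotients

open Finset

/-- A `𝒢`-adic sequence: a strictly increasing sequence of positive integers with `g 0 = 1`,
each term dividing the next one. -/
structure IsGAdic (g : ℕ → ℕ) : Prop where
  zero : g 0 = 1
  mono : StrictMono g
  dvd : ∀ i, g i ∣ g (i + 1)

/-- The set `A_𝒢(W)` of all `∑_{j ∈ F} x_j g_j` with `F ⊆ W` finite and nonempty and
`1 ≤ x_j ≤ d_{j+1} - 1`, where `d_{j+1} = g_{j+1} / g_j`. -/
def AG (g : ℕ → ℕ) (W : Set ℕ) : Set ℕ :=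
  {n | ∃ (F : Finset ℕ) (x : ℕ → ℕ), F.Nonempty ∧ (∀ j ∈ F, j ∈ W) ∧
      (∀ j ∈ F, 1 ≤ x j ∧ x j ≤ g (j + 1) / g j - 1) ∧ n = ∑ j ∈ F, x j * g j}

/-- A partition of `ℕ` into `h` nonempty pairwise disjoint parts. -/
structure IsPartition {h : ℕ} (W : Fin h → Set ℕ) : Prop where
  nonempty : ∀ i, (W i).Nonempty
  disjoint : ∀ i j, i ≠ j → Disjoint (W i) (W j)
  cover : ∀ n, ∃ i, n ∈ W i

/-- The set `A = {0} ∪ ⋃ i, A_𝒢(W_i)`. -/
def fullSet (g : ℕ → ℕ) {h : ℕ} (W : Fin h → Set ℕ) : Set ℕ := {0} ∪ ⋃ i, AG g (W i)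

/-- `B` is an asymptotic basis of order `h`: every large integer is a sum of `h` elements of `B`
(repetitions allowed). -/
def IsAsymptoticBasis (h : ℕ) (B : Set ℕ) : Prop :=
  ∃ N, ∀ n, N ≤ n → ∃ f : Fin h → ℕ, (∀ t, f t ∈ B) ∧ n = ∑ t, f t

/-! ### digits -/

/-- quotient -/
def D (g : ℕ → ℕ) (l : ℕ) : ℕ := g (l + 1) / g l

/-- the digit of `n` at position `l` -/
def dig (g : ℕ → ℕ) (n l : ℕ) : ℕ := n / g l % D g l

/-- value of a digit function up to `N` -/
def val (g : ℕ → ℕ) (x : ℕ → ℕ) (N : ℕ) : ℕ := ∑ j ∈ range N, x j * g j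

section basic
variable {g : ℕ → ℕ} (hg : IsGAdic g)
include hg

lemma gpos (l : ℕ) : 0 < g l := by
  have h0 := hg.zero
  rcases Nat.eq_zero_or_pos l with h | h
  · subst h; omega
  · have := hg.mono h; omega

lemma gsucc (l : ℕ) : g (l + 1) = D g l * g l := by
  unfold D
  exact (Nat.div_mul_cancel (hg.dvd l)).symm

lemma two_le_D (l : ℕ) : 2 ≤ D g l := by
  have h1 := gsucc hg l
  have h2 := hg.mono (Nat.lt_succ_self l)
  have h3 := gpos hg l
  by_contra h
  have : D g l ≤ 1 := by omega
  have : D g l * g l ≤ 1 * g l := Nat.mul_le_mul_right _ this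
  simp only [Nat.succ_eq_add_one] at h2
  omega

lemma le_g (l : ℕ) : l ≤ g l := hg.mono.le_apply

lemma g_dvd {i j : ℕ} (h : i ≤ j) : g i ∣ g j := by
  induction j, h using Nat.le_induction with
  | base => exact dvd_rfl
  | succ n _ ih => exact ih.trans (hg.dvd n)

lemma dig_lt (n l : ℕ) : dig g n l < D g l :=
  Nat.mod_lt _ (by have := two_le_D hg l; omega)

lemma mod_succ (n l : ℕ) : n % g (l + 1) = n % g l + dig g n l * g l := by
  rw [gsucc hg l, mul_comm (D g l), Nat.mod_mul, mul_comm (g l)]
  rfl

lemma mod_eq_val (n N : ℕ) : n % g N = val g (dig g n) N := by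
  induction N with
  | zero => simp [val, hg.zero, Nat.mod_one]
  | succ N ih => rw [mod_succ hg, ih]; simp [val, sum_range_succ]

lemma eq_val {n N : ℕ} (h : n < g N) : n = val g (dig g n) N := by
  rw [← mod_eq_val hg, Nat.mod_eq_of_lt h]

lemma val_lt {x : ℕ → ℕ} (hx : ∀ j, x j < D g j) (N : ℕ) : val g x N < g N := by
  induction N with
  | zero => simp [val, hg.zero]
  | succ N ih =>
    have h1 : val g x (N + 1) = val g x N + x N * g N := by simp [val, sum_range_succ]
    rw [h1, gsucc hg N]
    have : (x N + 1) * g N ≤ D g N * g N := Nat.mul_le_mul_right _ (hx N)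
    nlinarith

lemma val_mod {x : ℕ → ℕ} (hx : ∀ j, x j < D g j) {l N : ℕ} (h : l ≤ N) :
    val g x N % g l = val g x l := by
  induction N, h using Nat.le_induction with
  | base => exact Nat.mod_eq_of_lt (val_lt hg hx l)
  | succ N hN ih =>
    have h1 : val g x (N + 1) = val g x N + x N * g N := by simp [val, sum_range_succ]
    rw [h1, Nat.add_mod, (Nat.mod_eq_zero_of_dvd ((g_dvd hg hN).mul_left _) : x N * g N % g l = 0),
      add_zero, Nat.mod_mod, ih]

lemma dig_val {x : ℕ → ℕ} (hx : ∀ j, x j < D g j) {l N : ℕ} (h : l < N) :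
    dig g (val g x N) l = x l := by
  have h1 := mod_succ hg (val g x N) l
  rw [val_mod hg hx h.le, val_mod hg hx (Nat.succ_le_of_lt h)] at h1
  have h2 : val g x (l + 1) = val g x l + x l * g l := by simp [val, sum_range_succ]
  rw [h2] at h1
  exact (Nat.eq_of_mul_eq_mul_right (gpos hg l) (by omega)).symm

omit hg in
lemma dig_of_lt {n l : ℕ} (h : n < g l) : dig g n l = 0 := by
  simp [dig, Nat.div_eq_of_lt h]

lemma dig_val' {x : ℕ → ℕ} (hx : ∀ j, x j < D g j) (l N : ℕ) :
    dig g (val g x N) l = if l < N then x l else 0 := by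
  split_ifs with h
  · exact dig_val hg hx h
  · apply dig_of_lt
    exact (val_lt hg hx N).trans_le (hg.mono.monotone (by omega))

lemma dig_ext {m n : ℕ} (h : ∀ l, dig g m l = dig g n l) : m = n := by
  have hm : m < g (max m n + 1) := lt_of_lt_of_le (by omega) (le_g hg _)
  have hn : n < g (max m n + 1) := lt_of_lt_of_le (by omega) (le_g hg _)
  calc m = val g (dig g m) (max m n + 1) := eq_val hg hm
    _ = val g (dig g n) (max m n + 1) := by rw [funext h]
    _ = n := (eq_val hg hn).symm

lemma mem_AG {W : Set ℕ} {n : ℕ} : n ∈ AG g W ↔ n ≠ 0 ∧ ∀ l, l ∉ W → dig g n l = 0 := by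
  classical
  constructor
  · rintro ⟨F, x, hF, hFW, hx, rfl⟩
    set y : ℕ → ℕ := fun j => if j ∈ F then x j else 0 with hy
    have hy' : ∀ j, y j < D g j := by
      intro j
      have := two_le_D hg j
      simp only [hy]
      split_ifs with h
      · have := (hx j h).2
        unfold D at *
        omega
      · omega
    obtain ⟨M, hM⟩ : ∃ M, ∀ j ∈ F, j < M := ⟨F.sup id + 1, fun j hj => by
      have := Finset.le_sup (f := id) hj
      simp only [id] at this
      omega⟩
    have hval : ∑ j ∈ F, x j * g j = val g y M := by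
      unfold val
      rw [← Finset.sum_subset (s₁ := F) (s₂ := range M)]
      · exact sum_congr rfl fun j hj => by simp [hy, hj]
      · intro j hj; exact mem_range.2 (hM j hj)
      · intro j _ hj; simp [hy, hj]
    refine ⟨?_, ?_⟩
    · obtain ⟨j, hj⟩ := hF
      have h1 : x j * g j ≤ ∑ j ∈ F, x j * g j :=
        Finset.single_le_sum (f := fun j => x j * g j) (fun _ _ => Nat.zero_le _) hj
      have h2 := (hx j hj).1
      have h3 := gpos hg j
      have h4 : 1 ≤ x j * g j := Nat.mul_pos h2 h3
      omega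
    · intro l hl
      rw [hval, dig_val' hg hy']
      split_ifs with h
      · have : l ∉ F := fun h' => hl (hFW l h')
        simp [hy, this]
      · rfl
  · rintro ⟨hn, hd⟩
    have hlt : n < g (n + 1) := lt_of_lt_of_le (by omega) (le_g hg _)
    refine ⟨(range (n + 1)).filter (fun l => dig g n l ≠ 0), dig g n, ?_, ?_, ?_, ?_⟩
    · by_contra hne
      rw [Finset.not_nonempty_iff_eq_empty, Finset.filter_eq_empty_iff] at hne
      apply hn
      rw [eq_val hg hlt]
      unfold val
      apply Finset.sum_eq_zero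
      intro j hj
      have := hne hj
      simp only [ne_eq, not_not] at this
      simp [this]
    · intro j hj
      rw [Finset.mem_filter] at hj
      by_contra h
      exact hj.2 (hd j h)
    · intro j hj
      rw [Finset.mem_filter] at hj
      have h1 := dig_lt hg n j
      refine ⟨by omega, ?_⟩
      unfold D at h1
      omega
    · conv_lhs => rw [eq_val hg hlt]
      unfold val
      rw [Finset.sum_filter]
      apply sum_congr rfl
      intro j _
      by_cases h : dig g n j = 0 <;> simp [h]

/-- membership in `A_G(W) ∪ {0}` -/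
lemma mem_AG0 {W : Set ℕ} {n : ℕ} : (n = 0 ∨ n ∈ AG g W) ↔ ∀ l, l ∉ W → dig g n l = 0 := by
  rw [mem_AG hg]
  constructor
  · rintro (h | h)
    · subst h; intro l _; simp [dig]
    · exact h.2
  · intro h
    by_cases h0 : n = 0
    · exact Or.inl h0
    · exact Or.inr ⟨h0, h⟩

lemma mod_eq_mod_of_dig {m n b : ℕ} (h : ∀ l, l < b → dig g m l = dig g n l) :
    m % g b = n % g b := by
  rw [mod_eq_val hg, mod_eq_val hg]
  unfold val
  exact sum_congr rfl fun l hl => by rw [h l (mem_range.1 hl)]

/-- digits of `s + y * g b` when `s < g b`, `y < g j / g b`. -/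
lemma dig_add_lt {s y b l : ℕ} (hl : l < b) : dig g (s + y * g b) l = dig g s l := by
  have h1 : (s + y * g b) % g (l + 1) = s % g (l + 1) := by
    rw [Nat.add_mod, (Nat.mod_eq_zero_of_dvd ((g_dvd hg (by omega : l + 1 ≤ b)).mul_left _) :
      y * g b % g (l + 1) = 0), add_zero, Nat.mod_mod]
  have h2 : (s + y * g b) % g l = s % g l := by
    rw [Nat.add_mod, (Nat.mod_eq_zero_of_dvd ((g_dvd hg (by omega : l ≤ b)).mul_left _) :
      y * g b % g l = 0), add_zero, Nat.mod_mod]
  have h3 := mod_succ hg (s + y * g b) l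
  have h4 := mod_succ hg s l
  rw [h1, h2, h4] at h3
  exact (Nat.eq_of_mul_eq_mul_right (gpos hg l) (by omega)).symm

lemma dig_eq_zero_of_le {n l j : ℕ} (h : n < g j) (hl : j ≤ l) : dig g n l = 0 :=
  dig_of_lt (h.trans_le (hg.mono.monotone hl))

end basic

/-! ### parts -/

open Classical in
/-- the `W`-part of `n` below position `N` -/
noncomputable def part (g : ℕ → ℕ) (W : Set ℕ) (n N : ℕ) : ℕ :=
  val g (fun l => if l ∈ W then dig g n l else 0) N

open Classical in
/-- the `W`-part of `g N - 1` -/
noncomputable def wt (g : ℕ → ℕ) (W : Set ℕ) (N : ℕ) : ℕ :=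
  val g (fun l => if l ∈ W then D g l - 1 else 0) N

section parts
variable {g : ℕ → ℕ} (hg : IsGAdic g)
include hg

open Classical in
lemma dig_part (W : Set ℕ) (n N l : ℕ) :
    dig g (part g W n N) l = if l < N then (if l ∈ W then dig g n l else 0) else 0 := by
  unfold part
  rw [dig_val' hg]
  intro j
  have := dig_lt hg n j
  split_ifs <;> omega

lemma dig_part_mem {W : Set ℕ} {n N l : ℕ} (hn : n < g N) (hl : l ∈ W) :
    dig g (part g W n N) l = dig g n l := by
  rw [dig_part hg]
  split_ifs with h
  · rfl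
  · exact (dig_eq_zero_of_le hg hn (by omega)).symm

lemma dig_part_not_mem {W : Set ℕ} {n N l : ℕ} (hl : l ∉ W) :
    dig g (part g W n N) l = 0 := by
  rw [dig_part hg]
  split_ifs <;> rfl

lemma wt_lt (W : Set ℕ) (N : ℕ) : wt g W N < g N := by
  classical
  unfold wt
  apply val_lt hg
  intro j
  have := two_le_D hg j
  split_ifs <;> omega

lemma mod_le_wt {W : Set ℕ} {n : ℕ} (h : ∀ l, l ∉ W → dig g n l = 0) (N : ℕ) :
    n % g N ≤ wt g W N := by
  classical
  rw [mod_eq_val hg]
  unfold wt val
  apply Finset.sum_le_sum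
  intro l _
  apply Nat.mul_le_mul_right
  have := dig_lt hg n l
  show dig g n l ≤ if l ∈ W then D g l - 1 else 0
  split_ifs with hl
  · omega
  · rw [h l hl]

variable {h : ℕ} {W : Fin h → Set ℕ} (hW : IsPartition W)
include hW

omit hg in
open Classical in
lemma sum_ite (x : ℕ → ℕ) (l : ℕ) : ∑ c, (if l ∈ W c then x l else 0) = x l := by
  obtain ⟨c, hc⟩ := hW.cover l
  rw [Finset.sum_eq_single c]
  · simp [hc]
  · intro c' _ hne
    have : l ∉ W c' := fun h' => Set.disjoint_left.1 (hW.disjoint c' c hne) h' hc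
    simp [this]
  · simp

lemma sum_part (n N : ℕ) : ∑ c, part g (W c) n N = n % g N := by
  classical
  rw [mod_eq_val hg]
  unfold part val
  rw [Finset.sum_comm]
  apply sum_congr rfl
  intro l _
  rw [← Finset.sum_mul, sum_ite hW (fun l => dig g n l)]

lemma sum_wt (N : ℕ) : ∑ c, wt g (W c) N + 1 = g N := by
  classical
  have : ∑ c, wt g (W c) N = val g (fun l => D g l - 1) N := by
    unfold wt val
    rw [Finset.sum_comm]
    apply sum_congr rfl
    intro l _
    rw [← Finset.sum_mul, sum_ite hW (fun l => D g l - 1)]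
  rw [this]
  induction N with
  | zero => simp [val, hg.zero]
  | succ N ih =>
    have h1 : val g (fun l => D g l - 1) (N + 1) = val g (fun l => D g l - 1) N + (D g N - 1) * g N := by
      simp [val, sum_range_succ]
    have h2 : ∑ c, wt g (W c) N = val g (fun l => D g l - 1) N := by
      unfold wt val
      rw [Finset.sum_comm]
      apply sum_congr rfl
      intro l _
      rw [← Finset.sum_mul, sum_ite hW (fun l => D g l - 1)]
    have ih := ih h2
    rw [h1, gsucc hg N]
    have h3 := two_le_D hg N
    obtain ⟨e, he⟩ : ∃ e, D g N = e + 1 := ⟨D g N - 1, by omega⟩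
    rw [he, Nat.add_sub_cancel, add_mul]
    omega

/-- Standard representation: if the `W i`-digits of `n` differ from those of `a ∈ AG (W i)`,
then `n` is a sum of `h` elements different from `a`. -/
lemma rep_of_dig_ne {a n : ℕ} {i : Fin h} (ha : a ∈ AG g (W i))
    (hne : ∃ l ∈ W i, dig g n l ≠ dig g a l) :
    ∃ f : Fin h → ℕ, (∀ t, f t ∈ fullSet g W \ {a}) ∧ n = ∑ t, f t := by
  obtain ⟨l, hl, hne⟩ := hne
  have hn : n < g (n + 1) := lt_of_lt_of_le (by omega) (le_g hg _)
  refine ⟨fun c => part g (W c) n (n + 1), ?_, ?_⟩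
  · intro c
    have hsupp : ∀ l, l ∉ W c → dig g (part g (W c) n (n + 1)) l = 0 :=
      fun l hl => dig_part_not_mem hg hl
    refine ⟨?_, ?_⟩
    · rcases (mem_AG0 hg).2 hsupp with h0 | h0
      · left; simpa using h0
      · right; exact Set.mem_iUnion.2 ⟨c, h0⟩
    · intro hc
      rw [Set.mem_singleton_iff] at hc
      by_cases hci : c = i
      · subst hci
        apply hne
        rw [← hc, dig_part_mem hg hn hl]
      · rw [mem_AG hg] at ha
        apply ha.1
        apply dig_ext hg
        intro l'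
        rw [show dig g 0 l' = 0 by simp [dig]]
        by_cases h' : l' ∈ W i
        · rw [← hc]
          apply dig_part_not_mem hg
          exact fun h'' => Set.disjoint_left.1 (hW.disjoint c i hci) h'' h'
        · exact ha.2 l' h'
  · rw [sum_part hg hW, Nat.mod_eq_of_lt hn]

end parts

/-! ### splitting -/

lemma exists_split (h m Y : ℕ) (hY : Y ≤ h * m) :
    ∃ y : Fin h → ℕ, (∀ t, y t ≤ m) ∧ ∑ t, y t = Y := by
  induction h generalizing Y with
  | zero => exact ⟨fun _ => 0, fun t => t.elim0, by simp at hY; simp [hY]⟩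
  | succ h ih =>
    obtain ⟨y, hy, hs⟩ := ih (Y - min Y m) (by
      rcases le_total Y m with h1 | h1
      · simp [h1]
      · rw [min_eq_right h1]
        rw [add_mul] at hY
        omega)
    refine ⟨Fin.cons (min Y m) y, ?_, ?_⟩
    · intro t
      refine Fin.cases ?_ ?_ t
      · simp
      · intro t; simpa using hy t
    · rw [Fin.sum_univ_succ]
      simp only [Fin.cons_zero, Fin.cons_succ, hs]
      have : min Y m ≤ Y := min_le_left _ _
      omega

lemma exists_split_pos (h m Y : ℕ) (hm : 1 ≤ m) (hY : h ≤ Y) (hY' : Y ≤ h * m) :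
    ∃ y : Fin h → ℕ, (∀ t, 1 ≤ y t ∧ y t ≤ m) ∧ ∑ t, y t = Y := by
  obtain ⟨y, hy, hs⟩ := exists_split h (m - 1) (Y - h) (by
    rw [Nat.mul_sub, mul_one]; omega)
  refine ⟨fun t => y t + 1, ?_, ?_⟩
  · intro t
    have := hy t
    show 1 ≤ y t + 1 ∧ y t + 1 ≤ m
    omega
  · rw [Finset.sum_add_distrib, hs]
    simp
    omega

/-! ### sufficiency -/

section suff
variable {g : ℕ → ℕ} (hg : IsGAdic g)
include hg

lemma block {h : ℕ} (hh : 1 ≤ h) {P : Set ℕ} {a : ℕ}
    (hc : ∀ j, j ∉ P → g (j + 1) = h * g j ∧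
      ∃ b, b < j ∧ Set.Ico b j ⊆ P ∧ a % g j + h * g b ≤ g j + a % g b) (K : ℕ) :
    ∀ n, n < g K → (∀ l ∈ P, l < K → dig g n l = dig g a l) →
      ∃ s : Fin h → ℕ, n = ∑ t, s t ∧ (∀ t, s t < g K) ∧ ∀ t l, l ∉ P → dig g (s t) l = 0 := by
  induction K using Nat.strong_induction_on with
  | _ K ih =>
    intro n hn hdig
    rcases Nat.eq_zero_or_pos K with hK | hK
    · subst hK
      rw [hg.zero] at hn
      refine ⟨fun _ => 0, by simp; omega, fun t => by simp [hg.zero], fun t l _ => by simp [dig]⟩
    · obtain ⟨k, rfl⟩ : ∃ k, K = k + 1 := ⟨K - 1, by omega⟩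
      have hn' : n = n % g k + dig g n k * g k := by
        have := mod_succ hg n k
        rwa [Nat.mod_eq_of_lt hn] at this
      have hgk := gpos hg k
      have hmodk : n % g k < g k := Nat.mod_lt _ hgk
      have hdiglt := dig_lt hg n k
      have hgk1 := gsucc hg k
      by_cases hk : k ∈ P
      · obtain ⟨s, hs1, hs2, hs3⟩ := ih k (by omega) (n % g k) hmodk (by
          intro l hl hlk
          rw [← hdig l hl (by omega)]
          conv_rhs => rw [hn']
          exact (dig_add_lt hg hlk).symm)
        let t0 : Fin h := ⟨0, by omega⟩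
        refine ⟨fun t => s t + (if t = t0 then dig g n k else 0) * g k, ?_, ?_, ?_⟩
        · rw [Finset.sum_add_distrib, ← Finset.sum_mul, Finset.sum_ite_eq' univ t0]
          simp only [mem_univ, if_true]
          rw [← hs1]
          exact hn'
        · intro t
          have h1 := hs2 t
          have h2 : (if t = t0 then dig g n k else 0) * g k ≤ (D g k - 1) * g k := by
            apply Nat.mul_le_mul_right
            split_ifs <;> omega
          have h3 : (D g k - 1) * g k + g k = D g k * g k := by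
            obtain ⟨e, he⟩ : ∃ e, D g k = e + 1 := ⟨D g k - 1, by omega⟩
            rw [he, Nat.add_sub_cancel, add_mul, one_mul]
          show s t + (if t = t0 then dig g n k else 0) * g k < g (k + 1)
          omega
        · intro t l hl
          rcases lt_trichotomy l k with hlt | heq | hgt
          · rw [dig_add_lt hg hlt]
            exact hs3 t l hl
          · exact absurd (heq ▸ hk) hl
          · apply dig_eq_zero_of_le hg (j := k + 1) _ (by omega)
            have h1 := hs2 t
            have h2 : (if t = t0 then dig g n k else 0) * g k ≤ (D g k - 1) * g k := by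
              apply Nat.mul_le_mul_right
              split_ifs <;> omega
            have h3 : (D g k - 1) * g k + g k = D g k * g k := by
              obtain ⟨e, he⟩ : ∃ e, D g k = e + 1 := ⟨D g k - 1, by omega⟩
              rw [he, Nat.add_sub_cancel, add_mul, one_mul]
            show s t + (if t = t0 then dig g n k else 0) * g k < g (k + 1)
            omega
      · obtain ⟨hgk2, b, hbk, hbP, hab⟩ := hc k hk
        have hDk : D g k = h := by
          rw [hgk1] at hgk2
          exact Nat.eq_of_mul_eq_mul_right hgk hgk2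
        have hgb := gpos hg b
        obtain ⟨s, hs1, hs2, hs3⟩ := ih b (by omega) (n % g b) (Nat.mod_lt _ hgb) (by
          intro l hl hlb
          rw [← hdig l hl (by omega)]
          have h1 : (n % g b) % g (l + 1) = n % g (l + 1) :=
            Nat.mod_mod_of_dvd _ (g_dvd hg (by omega))
          have h2 : (n % g b) % g l = n % g l :=
            Nat.mod_mod_of_dvd _ (g_dvd hg (by omega))
          have h3 := mod_succ hg (n % g b) l
          have h4 := mod_succ hg n l
          rw [h1, h2, h4] at h3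
          exact (Nat.eq_of_mul_eq_mul_right (gpos hg l) (by omega)).symm)
        -- the block of digits of `n` in `[b, k)` equals that of `a`
        have hblk : ∀ c, b ≤ c → c ≤ k → n % g c + a % g b = a % g c + n % g b := by
          intro c hc1
          induction c, hc1 using Nat.le_induction with
          | base => intro _; omega
          | succ c hc1 ihc =>
            intro hck
            have h1 := ihc (by omega)
            have h2 : c ∈ P := hbP ⟨hc1, by omega⟩
            rw [mod_succ hg, mod_succ hg a, hdig c h2 (by omega)]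
            omega
        have hblk := hblk k hbk.le le_rfl
        obtain ⟨L, hL⟩ := g_dvd hg hbk.le
        have hLpos : 1 ≤ L := by
          rcases Nat.eq_zero_or_pos L with h0 | h0
          · rw [h0] at hL; omega
          · exact h0
        -- divisibility
        have hab' : a % g b ≤ a % g k := by
          rw [← Nat.mod_mod_of_dvd a (g_dvd hg hbk.le)]
          exact Nat.mod_le _ _
        obtain ⟨Z, hZ⟩ : g b ∣ a % g k - a % g b := by
          rw [← Nat.mod_mod_of_dvd a (g_dvd hg hbk.le)]
          exact Nat.dvd_sub_mod _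
        have hx : dig g n k ≤ h - 1 := by omega
        obtain ⟨y, hy1, hy2⟩ := exists_split h (L - 1) (Z + dig g n k * L) (by
          apply Nat.le_of_mul_le_mul_left _ hgb
          have e1 : g b * (Z + dig g n k * L) = (a % g k - a % g b) + dig g n k * g k := by
            rw [mul_add, ← hZ, hL]; ring
          have e2 : g b * (h * (L - 1)) + h * g b = h * g k := by
            obtain ⟨e, rfl⟩ : ∃ e, L = e + 1 := ⟨L - 1, by omega⟩
            rw [Nat.add_sub_cancel, hL]; ring
          have e3 : dig g n k * g k ≤ (h - 1) * g k := Nat.mul_le_mul_right _ hx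
          have e4 : (h - 1) * g k + g k = h * g k := by
            obtain ⟨e, rfl⟩ : ∃ e, h = e + 1 := ⟨h - 1, by omega⟩
            rw [Nat.add_sub_cancel]; ring
          rw [e1]
          omega)
        have hlt : ∀ t, s t + y t * g b < g k := by
          intro t
          have h1 := hs2 t
          have h2 := hy1 t
          have h3 : y t * g b ≤ (L - 1) * g b := Nat.mul_le_mul_right _ h2
          have h4 : (L - 1) * g b + g b = g k := by
            obtain ⟨e, rfl⟩ : ∃ e, L = e + 1 := ⟨L - 1, by omega⟩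
            rw [Nat.add_sub_cancel, hL]; ring
          omega
        refine ⟨fun t => s t + y t * g b, ?_, ?_, ?_⟩
        · rw [Finset.sum_add_distrib, ← Finset.sum_mul, hy2, ← hs1]
          have e1 : (Z + dig g n k * L) * g b = (a % g k - a % g b) + dig g n k * g k := by
            rw [add_mul, mul_comm Z, ← hZ, hL]; ring
          rw [e1]
          omega
        · intro t
          exact (hlt t).trans (hg.mono (Nat.lt_succ_self k))
        · intro t l hl
          rcases lt_or_ge l b with h1 | h1
          · rw [dig_add_lt hg h1]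
            exact hs3 t l hl
          · rcases lt_or_ge l k with h2 | h2
            · exact absurd (hbP ⟨h1, h2⟩) hl
            · exact dig_eq_zero_of_le hg (hlt t) h2

lemma dig_mod {n b l : ℕ} (hl : l < b) : dig g (n % g b) l = dig g n l := by
  have h1 : (n % g b) % g (l + 1) = n % g (l + 1) :=
    Nat.mod_mod_of_dvd _ (g_dvd hg (by omega))
  have h2 : (n % g b) % g l = n % g l :=
    Nat.mod_mod_of_dvd _ (g_dvd hg (by omega))
  have h3 := mod_succ hg (n % g b) l
  have h4 := mod_succ hg n l
  rw [h1, h2, h4] at h3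
  exact (Nat.eq_of_mul_eq_mul_right (gpos hg l) (by omega)).symm

/-- the top position of `n` -/
lemma exists_top {n : ℕ} (hn : 1 ≤ n) : ∃ J, g J ≤ n ∧ n < g (J + 1) ∧ dig g n J ≠ 0 := by
  classical
  have hex : ∃ k, n < g k := ⟨n + 1, lt_of_lt_of_le (by omega) (le_g hg _)⟩
  have h1 := Nat.find_spec hex
  have h2 : Nat.find hex ≠ 0 := by
    intro h0
    rw [h0, hg.zero] at h1
    omega
  obtain ⟨J, hJ⟩ : ∃ J, Nat.find hex = J + 1 := ⟨Nat.find hex - 1, by omega⟩
  rw [hJ] at h1
  have h3 : g J ≤ n := by
    have := Nat.find_min hex (m := J) (by omega)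
    omega
  refine ⟨J, h3, h1, ?_⟩
  intro h0
  have h4 := mod_succ hg n J
  rw [Nat.mod_eq_of_lt h1, h0, zero_mul, add_zero] at h4
  have := Nat.mod_lt n (gpos hg J)
  omega

lemma removable_of_cond {h : ℕ} (hh : 2 ≤ h) {W : Fin h → Set ℕ} (hW : IsPartition W)
    (hd : ∀ j, h ≤ g (j + 1) / g j) {a : ℕ} {i : Fin h} (ha : a ∈ AG g (W i))
    (hc : ∀ j, j ∉ W i → g (j + 1) = h * g j ∧
      ∃ b, b < j ∧ Set.Ico b j ⊆ W i ∧ a % g j + h * g b ≤ g j + a % g b) :
    IsAsymptoticBasis h (fullSet g W \ {a}) := by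
  obtain ⟨M, haM⟩ : ∃ M, a < g M := ⟨a + 1, lt_of_lt_of_le (by omega) (le_g hg _)⟩
  refine ⟨g (M + 1), fun n hn => ?_⟩
  by_cases hne : ∃ l ∈ W i, dig g n l ≠ dig g a l
  · exact rep_of_dig_ne hg hW ha hne
  push Not at hne
  have hn1 : 1 ≤ n := by have := gpos hg (M + 1); omega
  obtain ⟨J, hJ1, hJ2, hJ3⟩ := exists_top hg hn1
  have hJM : M + 1 ≤ J := by
    by_contra hlt
    have := hg.mono.monotone (show J + 1 ≤ M + 1 by omega)
    omega
  have hJP : J ∉ W i := by
    intro hJ
    apply hJ3
    rw [hne J hJ]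
    exact dig_eq_zero_of_le hg haM (by omega)
  obtain ⟨hgJ, b, hbJ, hbP, -⟩ := hc J hJP
  obtain ⟨k, rfl⟩ : ∃ k, J = k + 1 := ⟨J - 1, by omega⟩
  have hkP : k ∈ W i := hbP ⟨by omega, by omega⟩
  have hk0 : dig g n k = 0 := by
    rw [hne k hkP]
    exact dig_eq_zero_of_le hg haM (by omega)
  have hn2 : n = n % g k + dig g n (k + 1) * g (k + 1) := by
    have e1 := mod_succ hg n (k + 1)
    have e2 := mod_succ hg n k
    rw [Nat.mod_eq_of_lt hJ2] at e1
    rw [hk0, zero_mul, add_zero] at e2
    rw [← e2]
    exact e1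
  have hgk := gpos hg k
  obtain ⟨s, hs1, hs2, hs3⟩ := block hg (by omega) hc k (n % g k) (Nat.mod_lt _ hgk) (by
    intro l hl hlk
    rw [dig_mod hg hlk, hne l hl])
  have hDk : h ≤ D g k := hd k
  have hDJ : D g (k + 1) = h := by
    have e := gsucc hg (k + 1)
    rw [hgJ] at e
    exact (Nat.eq_of_mul_eq_mul_right (gpos hg (k + 1)) e).symm
  have hx := dig_lt hg n (k + 1)
  obtain ⟨y, hy1, hy2⟩ := exists_split_pos h (D g k - 1) (dig g n (k + 1) * D g k)
    (by have := two_le_D hg k; omega)
    (by
      have : 1 * D g k ≤ dig g n (k + 1) * D g k :=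
        Nat.mul_le_mul_right _ (by omega)
      omega)
    (by
      have e1 : dig g n (k + 1) * D g k ≤ (h - 1) * D g k :=
        Nat.mul_le_mul_right _ (by omega)
      have e2 : (h - 1) * D g k + D g k = h * D g k := by
        obtain ⟨e, rfl⟩ : ∃ e, h = e + 1 := ⟨h - 1, by omega⟩
        rw [Nat.add_sub_cancel]; ring
      have e3 : h * (D g k - 1) + h = h * D g k := by
        obtain ⟨e, he⟩ : ∃ e, D g k = e + 1 := ⟨D g k - 1, by omega⟩
        rw [he, Nat.add_sub_cancel]; ring
      omega)
  have hlt : ∀ t, s t + y t * g k < g (k + 1) := by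
    intro t
    have h1 := hs2 t
    have h3 : y t * g k ≤ (D g k - 1) * g k := Nat.mul_le_mul_right _ (hy1 t).2
    have h4 : (D g k - 1) * g k + g k = g (k + 1) := by
      rw [gsucc hg k]
      obtain ⟨e, he⟩ : ∃ e, D g k = e + 1 := ⟨D g k - 1, by omega⟩
      rw [he, Nat.add_sub_cancel]; ring
    omega
  have hge : ∀ t, g k ≤ s t + y t * g k := by
    intro t
    have h3 : 1 * g k ≤ y t * g k := Nat.mul_le_mul_right _ (hy1 t).1
    omega
  refine ⟨fun t => s t + y t * g k, ?_, ?_⟩
  · intro t
    have hgt : a < s t + y t * g k := by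
      have := hg.mono.monotone (show M ≤ k by omega)
      have := hge t
      omega
    refine ⟨Or.inr (Set.mem_iUnion.2 ⟨i, ?_⟩), ?_⟩
    · rw [mem_AG hg]
      refine ⟨?_, ?_⟩
      · show s t + y t * g k ≠ 0
        omega
      intro l hl
      rcases lt_trichotomy l k with h1 | h1 | h1
      · rw [dig_add_lt hg h1]
        exact hs3 t l hl
      · exact absurd (h1 ▸ hkP) hl
      · exact dig_eq_zero_of_le hg (hlt t) h1
    · rw [Set.mem_singleton_iff]
      show s t + y t * g k ≠ a
      omega
  · rw [Finset.sum_add_distrib, ← Finset.sum_mul, hy2, ← hs1]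
    conv_lhs => rw [hn2]
    rw [gsucc hg k]
    ring

lemma removable_of_finite {h : ℕ} {W : Fin h → Set ℕ} (hW : IsPartition W)
    {a : ℕ} {i : Fin h} (ha : a ∈ AG g (W i)) (hc : (W i)ᶜ.Finite) :
    IsAsymptoticBasis h (fullSet g W \ {a}) := by
  obtain ⟨M, hM⟩ := hc.bddAbove
  have haM : a < g (max M a + 1) := lt_of_lt_of_le (by omega) (le_g hg _)
  refine ⟨g (max M a + 1), fun n hn => ?_⟩
  apply rep_of_dig_ne hg hW ha
  have hn1 : 1 ≤ n := by have := gpos hg (max M a + 1); omega
  obtain ⟨J, hJ1, hJ2, hJ3⟩ := exists_top hg hn1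
  have hJM : max M a + 1 ≤ J := by
    by_contra hlt
    have := hg.mono.monotone (show J + 1 ≤ max M a + 1 by omega)
    omega
  refine ⟨J, ?_, ?_⟩
  · by_contra hJ
    have := hM hJ
    omega
  · rw [dig_eq_zero_of_le hg haM hJM]
    exact hJ3

/-! ### removing zero -/

omit hg in
lemma mul_mem_AG {W : Set ℕ} {k x : ℕ} (hk : k ∈ W) (hx : 1 ≤ x) (hx' : x ≤ D g k - 1) :
    x * g k ∈ AG g W :=
  ⟨{k}, fun _ => x, Finset.singleton_nonempty k, by simpa using hk,
    by intro j hj; rw [Finset.mem_singleton] at hj; subst hj; exact ⟨hx, hx'⟩, by simp⟩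

lemma split_two {h : ℕ} {W : Fin h → Set ℕ} (hW : IsPartition W) {y : ℕ}
    (hy : ∃ c, y ∈ AG g (W c)) (hy2 : 2 ≤ y) :
    ∃ y1 y2, (∃ c, y1 ∈ AG g (W c)) ∧ (∃ c, y2 ∈ AG g (W c)) ∧ y = y1 + y2 := by
  obtain ⟨c, hyc⟩ := hy
  obtain ⟨J, hJ1, hJ2, hJ3⟩ := exists_top hg (show 1 ≤ y by omega)
  have hyc' := (mem_AG hg).1 hyc
  have hJc : J ∈ W c := by
    by_contra hJ
    exact hJ3 (hyc'.2 J hJ)
  have hD := two_le_D hg J
  by_cases hyJ : y = g J
  · have hJ0 : J ≠ 0 := by
      rintro rfl
      rw [hg.zero] at hyJ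
      omega
    obtain ⟨k, rfl⟩ : ∃ k, J = k + 1 := ⟨J - 1, by omega⟩
    obtain ⟨c', hc'⟩ := hW.cover k
    have hDk := two_le_D hg k
    refine ⟨(D g k - 1) * g k, 1 * g k, ⟨c', mul_mem_AG hc' (by omega) le_rfl⟩,
      ⟨c', mul_mem_AG hc' le_rfl (by omega)⟩, ?_⟩
    rw [hyJ, gsucc hg k]
    obtain ⟨e, he⟩ : ∃ e, D g k = e + 1 := ⟨D g k - 1, by omega⟩
    rw [he, Nat.add_sub_cancel]; ring
  · refine ⟨1 * g J, y - g J, ⟨c, mul_mem_AG hJc le_rfl (by omega)⟩, ⟨c, ?_⟩, by omega⟩
    rw [mem_AG hg]
    refine ⟨by omega, ?_⟩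
    intro l hl
    have hy' : y = y % g J + dig g y J * g J := by
      have := mod_succ hg y J
      rwa [Nat.mod_eq_of_lt hJ2] at this
    have hy3 : y - g J = y % g J + (dig g y J - 1) * g J := by
      obtain ⟨e, he⟩ : ∃ e, dig g y J = e + 1 := ⟨dig g y J - 1, by omega⟩
      rw [he, add_mul, one_mul] at hy'
      rw [he, Nat.add_sub_cancel]
      omega
    rcases lt_trichotomy l J with h1 | h1 | h1
    · rw [hy3, dig_add_lt hg h1, dig_mod hg h1]
      exact hyc'.2 l hl
    · exact absurd (h1 ▸ hJc) hl
    · exact dig_eq_zero_of_le hg (show y - g J < g (J + 1) by omega) h1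

lemma removable_zero {h : ℕ} {W : Fin h → Set ℕ} (hW : IsPartition W) :
    IsAsymptoticBasis h (fullSet g W \ {0}) := by
  classical
  refine ⟨h + 1, fun n hn => ?_⟩
  -- the multiset of nonzero parts
  have step : ∀ k, k ≤ h → (∃ s : Multiset ℕ, Multiset.card s = k ∧
      (∀ y ∈ s, ∃ c, y ∈ AG g (W c)) ∧ s.sum = n) →
      ∃ s : Multiset ℕ, Multiset.card s = h ∧
      (∀ y ∈ s, ∃ c, y ∈ AG g (W c)) ∧ s.sum = n := by
    intro k hk
    induction hkk : h - k generalizing k with
    | zero =>
      intro H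
      have : k = h := by omega
      rwa [this] at H
    | succ e ih =>
      rintro ⟨s, hs1, hs2, hs3⟩
      apply ih (k + 1) (by omega) (by omega)
      obtain ⟨y, hy, hy2⟩ : ∃ y ∈ s, 2 ≤ y := by
        by_contra hcon
        push Not at hcon
        have := Multiset.sum_le_card_nsmul s 1 (fun x hx => by have := hcon x hx; omega)
        rw [hs1, hs3] at this
        simp at this
        omega
      obtain ⟨y1, y2, h1, h2, h3⟩ := split_two hg hW (hs2 y hy) hy2
      refine ⟨y1 ::ₘ y2 ::ₘ s.erase y, ?_, ?_, ?_⟩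
      · rw [Multiset.card_cons, Multiset.card_cons, Multiset.card_erase_of_mem hy, hs1]
        have h5 : 0 < Multiset.card s := Multiset.card_pos_iff_exists_mem.2 ⟨y, hy⟩
        rw [hs1] at h5
        show k.pred + 1 + 1 = k + 1
        rw [Nat.pred_eq_sub_one]
        omega
      · intro z hz
        rw [Multiset.mem_cons, Multiset.mem_cons] at hz
        rcases hz with rfl | rfl | hz
        · exact h1
        · exact h2
        · exact hs2 z (Multiset.mem_of_mem_erase hz)
      · rw [Multiset.sum_cons, Multiset.sum_cons, ← add_assoc, ← h3, Multiset.sum_erase hy, hs3]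
  have hlt : n < g (n + 1) := lt_of_lt_of_le (by omega) (le_g hg _)
  obtain ⟨s, hs1, hs2, hs3⟩ := step
    (Finset.univ.filter (fun c : Fin h => part g (W c) n (n + 1) ≠ 0)).card
    (by
      have h6 := Finset.card_le_univ
        (Finset.univ.filter (fun c : Fin h => part g (W c) n (n + 1) ≠ 0))
      rwa [Fintype.card_fin] at h6)
    ⟨(Finset.univ.filter (fun c : Fin h => part g (W c) n (n + 1) ≠ 0)).val.map
        (fun c => part g (W c) n (n + 1)), by simp [Finset.card_def], by
      intro y hy
      rw [Multiset.mem_map] at hy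
      obtain ⟨c, hc, rfl⟩ := hy
      rw [Finset.mem_val, Finset.mem_filter] at hc
      refine ⟨c, ?_⟩
      rw [mem_AG hg]
      exact ⟨hc.2, fun l hl => dig_part_not_mem hg hl⟩, by
      rw [show (Multiset.map (fun c => part g (W c) n (n + 1))
        (Finset.univ.filter (fun c : Fin h => part g (W c) n (n + 1) ≠ 0)).val).sum =
        ∑ c ∈ Finset.univ.filter (fun c : Fin h => part g (W c) n (n + 1) ≠ 0),
          part g (W c) n (n + 1) from rfl, Finset.sum_filter_ne_zero,
        sum_part hg hW, Nat.mod_eq_of_lt hlt]⟩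
  induction s using Quotient.inductionOn with
  | _ l =>
    simp only [Multiset.quot_mk_to_coe, Multiset.coe_card, Multiset.mem_coe,
      Multiset.sum_coe] at hs1 hs2 hs3
    subst hs1
    refine ⟨l.get, ?_, ?_⟩
    · intro t
      obtain ⟨c, hc⟩ := hs2 (l.get t) (List.get_mem _ _)
      refine ⟨Or.inr (Set.mem_iUnion.2 ⟨c, hc⟩), ?_⟩
      rw [Set.mem_singleton_iff]
      exact ((mem_AG hg).1 hc).1
    · rw [← hs3, ← List.sum_ofFn, List.ofFn_get]

end suff

/-! ### necessity -/

lemma run_start (P : Set ℕ) (j : ℕ) :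
    ∃ b, b ≤ j ∧ Set.Ico b j ⊆ P ∧ (b = 0 ∨ b - 1 ∉ P) := by
  induction j with
  | zero => exact ⟨0, le_rfl, by simp, Or.inl rfl⟩
  | succ j ih =>
    by_cases hj : j ∈ P
    · obtain ⟨b, hb1, hb2, hb3⟩ := ih
      refine ⟨b, by omega, ?_, hb3⟩
      intro l hl
      rcases Nat.lt_or_ge l j with h | h
      · exact hb2 ⟨hl.1, h⟩
      · have : l = j := by have := hl.2; omega
        rwa [this]
    · exact ⟨j + 1, le_rfl, by simp, Or.inr (by simpa using hj)⟩

section nec
variable {g : ℕ → ℕ} (hg : IsGAdic g)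
include hg

omit hg in
open Classical in
lemma wt_succ (P : Set ℕ) (N : ℕ) :
    wt g P (N + 1) = wt g P N + (if N ∈ P then D g N - 1 else 0) * g N := by
  simp [wt, val, sum_range_succ]

lemma wt_succ_not_mem {P : Set ℕ} {N : ℕ} (hN : N ∉ P) : wt g P (N + 1) = wt g P N := by
  classical
  rw [wt_succ, if_neg hN, zero_mul, add_zero]

lemma wt_succ_mem {P : Set ℕ} {N : ℕ} (hN : N ∈ P) :
    wt g P (N + 1) + g N = wt g P N + g (N + 1) := by
  classical
  rw [wt_succ, if_pos hN, gsucc hg N]
  have := two_le_D hg N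
  obtain ⟨e, he⟩ : ∃ e, D g N = e + 1 := ⟨D g N - 1, by omega⟩
  rw [he, Nat.add_sub_cancel]; ring

lemma wt_run {P : Set ℕ} {b j : ℕ} (hbj : b ≤ j) (hP : Set.Ico b j ⊆ P) :
    wt g P j + g b = wt g P b + g j := by
  induction j, hbj using Nat.le_induction with
  | base => rfl
  | succ j hj ih =>
    have h1 := ih (fun l hl => hP ⟨hl.1, by have := hl.2; omega⟩)
    have h2 := wt_succ_mem hg (hP ⟨hj, Nat.lt_succ_self j⟩)
    omega

lemma cond_of_removable {h : ℕ} (hh : 2 ≤ h) {W : Fin h → Set ℕ} (hW : IsPartition W)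
    (hd : ∀ j, h ≤ g (j + 1) / g j) {a : ℕ} {i : Fin h} (ha : a ∈ AG g (W i))
    (hQ : (W i)ᶜ.Infinite) (hb : IsAsymptoticBasis h (fullSet g W \ {a}))
    (j : ℕ) (hj : j ∉ W i) :
    g (j + 1) = h * g j ∧
      ∃ b, b < j ∧ Set.Ico b j ⊆ W i ∧ a % g j + h * g b ≤ g j + a % g b := by
  classical
  rw [mem_AG hg] at ha
  obtain ⟨ha0, ha⟩ := ha
  obtain ⟨N0, hN0⟩ := hb
  choose e he using hW.nonempty
  obtain ⟨l0, hl0, hl0'⟩ := hQ.exists_gt N0
  have hl0 : l0 ∉ W i := hl0
  obtain ⟨N, hN⟩ : ∃ N, ∀ m, (m ≤ l0 ∨ m ≤ a ∨ m ≤ j ∨ ∃ c, m = e c) → m < N :=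
    ⟨l0 + a + j + ∑ c, e c + 1, fun m hm => by
      rcases hm with hm | hm | hm | ⟨c, rfl⟩
      · omega
      · omega
      · omega
      · have := Finset.single_le_sum (f := e) (fun _ _ => Nat.zero_le _) (Finset.mem_univ c)
        omega⟩
  have hl0N : l0 < N := hN l0 (Or.inl le_rfl)
  have haN : a < g N := by
    have h1 := hN a (Or.inr (Or.inl le_rfl))
    exact h1.trans_le (le_g hg N)
  have hjN : j < N := hN j (by omega)
  have heN : ∀ c, e c < N := fun c => hN _ (Or.inr (Or.inr (Or.inr ⟨c, rfl⟩)))
  set x : ℕ → ℕ := fun l => if l ∈ W i then dig g a l else D g l - 1 with hxdef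
  have hx : ∀ l, x l < D g l := by
    intro l
    have h1 := dig_lt hg a l
    have h2 := two_le_D hg l
    simp only [hxdef]
    split_ifs <;> omega
  -- relation between `val x` and the weight of `W i`
  have hval : ∀ m, val g x m + wt g (W i) m + 1 = a % g m + g m := by
    intro m
    have h1 := sum_wt hg hW m
    have h2 : ∑ c, wt g (W c) m = val g (fun l => D g l - 1) m := by
      unfold wt val
      rw [Finset.sum_comm]
      apply sum_congr rfl
      intro l _
      rw [← Finset.sum_mul, sum_ite hW (fun l => D g l - 1)]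
    have h3 : val g x m + wt g (W i) m = a % g m + val g (fun l => D g l - 1) m := by
      rw [mod_eq_val hg a m]
      unfold wt val
      rw [← Finset.sum_add_distrib, ← Finset.sum_add_distrib]
      apply sum_congr rfl
      intro l _
      rw [← add_mul, ← add_mul]
      congr 1
      simp only [hxdef]
      split_ifs with hl
      · rfl
      · rw [ha l hl]; omega
    omega
  set n := val g x N with hn
  have hnlt : n < g N := val_lt hg hx N
  have hnN0 : N0 ≤ n := by
    have h1 : x l0 * g l0 ≤ n := by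
      rw [hn]
      unfold val
      exact Finset.single_le_sum (f := fun l => x l * g l) (fun _ _ => Nat.zero_le _)
        (Finset.mem_range.2 hl0N)
    have h2 : 1 ≤ x l0 := by
      have := two_le_D hg l0
      simp only [hxdef, if_neg hl0]
      omega
    have h3 : 1 * g l0 ≤ x l0 * g l0 := Nat.mul_le_mul_right _ h2
    have h4 := le_g hg l0
    omega
  obtain ⟨f, hf, hfn⟩ := hN0 n hnN0
  have hcl : ∀ t, ∃ c, ∀ l, l ∉ W c → dig g (f t) l = 0 := by
    intro t
    rcases (hf t).1 with h0 | h0
    · refine ⟨i, (mem_AG0 hg).1 (Or.inl (by simpa using h0))⟩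
    · obtain ⟨c, hc⟩ := Set.mem_iUnion.1 h0
      exact ⟨c, (mem_AG0 hg).1 (Or.inr hc)⟩
  choose c hc using hcl
  have hfle : ∀ t, f t ≤ n := by
    intro t
    rw [hfn]
    exact Finset.single_le_sum (f := f) (fun _ _ => Nat.zero_le _) (Finset.mem_univ t)
  by_cases hsurj : Function.Surjective c
  · -- the standard representation uses `a`
    exfalso
    have hbij : Function.Bijective c :=
      (Finite.injective_iff_surjective.2 hsurj |> fun hi => ⟨hi, hsurj⟩)
    obtain ⟨t0, ht0⟩ := hsurj i
    apply (hf t0).2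
    rw [Set.mem_singleton_iff]
    have hsum : ∀ l, ∀ t, l ∈ W (c t) → ∑ t', dig g (f t') l = dig g (f t) l := by
      intro l t hl
      apply Finset.sum_eq_single t
      · intro t' _ hne
        apply hc t'
        intro hl'
        exact Set.disjoint_left.1 (hW.disjoint (c t') (c t) (fun hcc => hne (hbij.1 hcc))) hl' hl
      · simp
    have hy : ∀ l, ∑ t', dig g (f t') l < D g l := by
      intro l
      obtain ⟨c', hc'⟩ := hW.cover l
      obtain ⟨t, rfl⟩ := hsurj c'
      rw [hsum l t hc']
      exact dig_lt hg _ _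
    have hnval : n = val g (fun l => ∑ t', dig g (f t') l) N := by
      conv_lhs => rw [hfn]
      have : ∀ t, f t = val g (dig g (f t)) N := fun t => eq_val hg ((hfle t).trans_lt hnlt)
      rw [Finset.sum_congr rfl (fun t _ => this t)]
      unfold val
      rw [Finset.sum_comm]
      apply sum_congr rfl
      intro l _
      rw [Finset.sum_mul]
    apply dig_ext hg
    intro l
    by_cases hl : l ∈ W i
    · rcases Nat.lt_or_ge l N with hlN | hlN
      · have h1 : dig g n l = dig g (f t0) l := by
          rw [hnval, dig_val hg hy hlN]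
          exact hsum l t0 (by rwa [ht0])
        have h2 : dig g n l = dig g a l := by
          rw [hn, dig_val hg hx hlN]
          simp only [hxdef, if_pos hl]
        rw [← h1, h2]
      · rw [dig_eq_zero_of_le hg ((hfle t0).trans_lt hnlt) hlN, dig_eq_zero_of_le hg haN hlN]
    · rw [hc t0 l (by rwa [ht0]), ha l hl]
  -- the basic inequality
  have key : ∀ m, m ≤ N → val g x m ≤ ∑ t, wt g (W (c t)) m := by
    intro m hm
    calc val g x m = n % g m := (val_mod hg hx hm).symm
      _ = (∑ t, f t % g m) % g m := by rw [hfn, Finset.sum_nat_mod]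
      _ ≤ ∑ t, f t % g m := Nat.mod_le _ _
      _ ≤ ∑ t, wt g (W (c t)) m := Finset.sum_le_sum fun t _ => mod_le_wt hg (hc t) m
  by_cases hcase : ∀ c', c' ≠ i → ∃ t, c t = c'
  · -- every other class is used, `i` is not
    exfalso
    have hi : ∀ t, c t ≠ i := by
      intro t hti
      apply hsurj
      intro c'
      by_cases h' : c' = i
      · exact ⟨t, by rw [hti, h']⟩
      · exact hcase c' h'
    have hninj : ¬ Function.Injective c := fun hinj => hsurj (Finite.injective_iff_surjective.1 hinj)
    rw [Function.Injective] at hninj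
    push Not at hninj
    obtain ⟨t1, t2, h12, hne⟩ := hninj
    have hsurj' : Function.Surjective (Function.update c t1 i) := by
      intro c'
      by_cases h' : c' = i
      · exact ⟨t1, by simp [h']⟩
      · obtain ⟨t, ht⟩ := hcase c' h'
        by_cases htt : t = t1
        · refine ⟨t2, ?_⟩
          rw [Function.update_of_ne (Ne.symm hne), ← h12, ← htt, ht]
        · exact ⟨t, by rw [Function.update_of_ne htt, ht]⟩
    have hbij' : Function.Bijective (Function.update c t1 i) :=
      ⟨Finite.injective_iff_surjective.2 hsurj', hsurj'⟩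
    -- a nonzero digit of `a`
    obtain ⟨j0, hj0⟩ : ∃ j0, dig g a j0 ≠ 0 := by
      by_contra hcon
      push Not at hcon
      apply ha0
      apply dig_ext hg
      intro l
      rw [hcon l]
      simp [dig]
    have hj0N : j0 < N := by
      by_contra hlt
      exact hj0 (dig_eq_zero_of_le hg haN (by omega))
    have hj0i : j0 ∈ W i := by
      by_contra hcon
      exact hj0 (ha j0 hcon)
    have hs1 : ∑ t, wt g (W (c t)) (j0 + 1) + wt g (W i) (j0 + 1) =
        ∑ t, wt g (W (Function.update c t1 i t)) (j0 + 1) + wt g (W (c t1)) (j0 + 1) := by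
      rw [← Finset.add_sum_erase _ _ (Finset.mem_univ t1),
        ← Finset.add_sum_erase Finset.univ
          (fun t => wt g (W (Function.update c t1 i t)) (j0 + 1)) (Finset.mem_univ t1)]
      have : ∑ t ∈ Finset.univ.erase t1, wt g (W (Function.update c t1 i t)) (j0 + 1) =
          ∑ t ∈ Finset.univ.erase t1, wt g (W (c t)) (j0 + 1) := by
        apply sum_congr rfl
        intro t ht
        rw [Function.update_of_ne (Finset.ne_of_mem_erase ht)]
      rw [this]
      simp only [Function.update_self]
      ring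
    have hs2 : ∑ t, wt g (W (Function.update c t1 i t)) (j0 + 1) =
        ∑ c', wt g (W c') (j0 + 1) :=
      Function.Bijective.sum_comp hbij' (fun c' => wt g (W c') (j0 + 1))
    have hs3 := sum_wt hg hW (j0 + 1)
    have hs4 := hval (j0 + 1)
    have hs5 := key (j0 + 1) (by omega)
    have hs6 : wt g (W (c t1)) (j0 + 1) = wt g (W (c t1)) j0 :=
      wt_succ_not_mem hg
        (fun h' => Set.disjoint_left.1 (hW.disjoint (c t1) i (hi t1)) h' hj0i)
    have hs7 := wt_lt hg (W (c t1)) j0
    have hs8 := mod_succ hg a j0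
    have hs9 : 1 * g j0 ≤ dig g a j0 * g j0 := Nat.mul_le_mul_right _ (by omega)
    omega
  · push Not at hcase
    obtain ⟨c1, hc1i, hc1⟩ := hcase
    -- all elements lie in class `i`
    have hall : ∀ t, c t = i := by
      by_contra hcon
      push Not at hcon
      obtain ⟨t1, ht1⟩ := hcon
      have hj1 := he c1
      have hj1N := heN c1
      set j1 := e c1
      have hj1i : j1 ∉ W i := fun h' => Set.disjoint_left.1 (hW.disjoint c1 i hc1i) hj1 h'
      have h1 := key (j1 + 1) (by omega)
      have h2 : ∑ t, wt g (W (c t)) (j1 + 1) = ∑ t, wt g (W (c t)) j1 := by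
        apply sum_congr rfl
        intro t _
        apply wt_succ_not_mem hg
        exact fun h' => Set.disjoint_left.1 (hW.disjoint (c t) c1 (hc1 t)) h' hj1
      have h3 : val g x (j1 + 1) = val g x j1 + (D g j1 - 1) * g j1 := by
        have : val g x (j1 + 1) = val g x j1 + x j1 * g j1 := by
          simp [val, sum_range_succ]
        rw [this]
        simp only [hxdef, if_neg hj1i]
      have h4 : wt g (W (c t1)) j1 ≤ val g x j1 := by
        unfold wt val
        apply Finset.sum_le_sum
        intro l _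
        apply Nat.mul_le_mul_right
        show (if l ∈ W (c t1) then D g l - 1 else 0) ≤ x l
        split_ifs with hl
        · have : l ∉ W i := fun h' => Set.disjoint_left.1 (hW.disjoint (c t1) i ht1) hl h'
          simp only [hxdef, if_neg this, le_refl]
        · omega
      have h5 : ∑ t, wt g (W (c t)) j1 ≤ wt g (W (c t1)) j1 + (h - 1) * (g j1 - 1) := by
        rw [← Finset.add_sum_erase _ _ (Finset.mem_univ t1)]
        apply Nat.add_le_add_left
        have := Finset.sum_le_card_nsmul (Finset.univ.erase t1)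
          (fun t => wt g (W (c t)) j1) (g j1 - 1) (fun t _ => by
            have := wt_lt hg (W (c t)) j1
            omega)
        rwa [Finset.card_erase_of_mem (Finset.mem_univ t1), Finset.card_univ,
          Fintype.card_fin, smul_eq_mul] at this
      have h6 : (h - 1) * g j1 ≤ (D g j1 - 1) * g j1 := by
        apply Nat.mul_le_mul_right
        have : h ≤ D g j1 := hd j1
        omega
      have h7 : (h - 1) * (g j1 - 1) < (h - 1) * g j1 := by
        apply Nat.mul_lt_mul_of_pos_left _ (by omega)
        have := gpos hg j1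
        omega
      omega
    have hsumi : ∀ m, ∑ t, wt g (W (c t)) m = h * wt g (W i) m := by
      intro m
      rw [Finset.sum_congr rfl (fun t _ => by rw [hall t]), Finset.sum_const, Finset.card_univ,
        Fintype.card_fin, smul_eq_mul]
    -- the main inequality at position `j`
    have hgj := gpos hg j
    have hDj : h ≤ D g j := hd j
    have m1 := key (j + 1) (by omega)
    rw [hsumi, wt_succ_not_mem hg hj] at m1
    have m2 : val g x (j + 1) = val g x j + (D g j - 1) * g j := by
      have : val g x (j + 1) = val g x j + x j * g j := by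
        simp [val, sum_range_succ]
      rw [this]
      simp only [hxdef, if_neg hj]
    have m3 := hval j
    have m4 := wt_lt hg (W i) j
    obtain ⟨q, hq⟩ : ∃ q, wt g (W i) j + 1 + q = g j := ⟨g j - wt g (W i) j - 1, by omega⟩
    have m5 : (D g j - 1) * g j + g j = D g j * g j := by
      obtain ⟨e, he⟩ : ∃ e, D g j = e + 1 := ⟨D g j - 1, by omega⟩
      rw [he, Nat.add_sub_cancel]; ring
    -- D g j * g j + a % g j + h + (h + 1) * q ≤ (h + 1) * g j
    have m6 : D g j * g j + a % g j + h + (h + 1) * q ≤ (h + 1) * g j := by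
      have e1 : (h + 1) * g j = (h + 1) * (wt g (W i) j) + (h + 1) + (h + 1) * q := by
        rw [← hq]; ring
      have e2 : (h + 1) * (wt g (W i) j) = h * wt g (W i) j + wt g (W i) j := by ring
      rw [e1, e2]
      omega
    have hDh : D g j = h := by
      by_contra hne
      have : h + 1 ≤ D g j := by omega
      have := Nat.mul_le_mul_right (g j) this
      omega
    refine ⟨by rw [gsucc hg j, hDh], ?_⟩
    have m7 : a % g j + h + (h + 1) * q ≤ g j := by
      rw [hDh] at m6
      have : (h + 1) * g j = h * g j + g j := by ring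
      omega
    obtain ⟨b, hb1, hb2, hb3⟩ := run_start (W i) j
    have r1 := wt_run hg hb1 hb2
    have hqb : wt g (W i) b + 1 + q = g b := by omega
    rcases Nat.eq_zero_or_pos b with hb0 | hbpos
    · -- the run starts at position `0`
      subst hb0
      rw [hg.zero] at hqb
      have hq0 : q = 0 := by omega
      refine ⟨0, ?_, hb2, ?_⟩
      · rcases Nat.eq_zero_or_pos j with hj0 | hj0
        · subst hj0
          rw [hg.zero] at m7
          omega
        · exact hj0
      · rw [hg.zero, Nat.mod_one, hq0] at *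
        omega
    · obtain ⟨k, rfl⟩ : ∃ k, b = k + 1 := ⟨b - 1, by omega⟩
      have hk : k ∉ W i := by
        rcases hb3 with h' | h'
        · omega
        · simpa using h'
      have r2 := wt_succ_not_mem hg hk
      have r3 := wt_lt hg (W i) k
      have r4 : h * g k ≤ g (k + 1) := by
        rw [gsucc hg k]
        exact Nat.mul_le_mul_right _ (hd k)
      have r5 : g (k + 1) ≤ q + g k := by omega
      have hgk := gpos hg k
      have hgk1 := gpos hg (k + 1)
      -- `h * q ≥ (h - 1) * g (k+1)`
      have r6 : h * g (k + 1) ≤ h * q + g (k + 1) := by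
        have := Nat.mul_le_mul_left h r5
        rw [mul_add] at this
        omega
      rcases Nat.eq_or_lt_of_le hb1 with hbj | hbj
      · exfalso
        rw [hbj] at r6 hgk1
        -- (h+1) q ≤ g j, h g j ≤ h q + g j
        have s1 : (h + 1) * q + h ≤ g j := by omega
        have s2 := Nat.mul_le_mul_left h s1
        have s3 := Nat.mul_le_mul_left (h + 1) r6
        have s4 : 2 * (h * g j) ≤ h * (h * g j) := Nat.mul_le_mul_right _ hh
        have s5 : 2 * g j ≤ h * g j := Nat.mul_le_mul_right _ hh
        have s6 : h * ((h + 1) * q + h) = (h * h * q + h * q) + h * h := by ring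
        have s7 : (h + 1) * (h * g j) = h * (h * g j) + h * g j := by ring
        have s8 : (h + 1) * (h * q + g j) = (h * h * q + h * q) + h * g j + g j := by ring
        have s9 : 0 < h * h := Nat.mul_pos (by omega) (by omega)
        rw [s6] at s2
        rw [s7, s8] at s3
        omega
      · refine ⟨k + 1, hbj, hb2, ?_⟩
        obtain ⟨L, hL⟩ := g_dvd hg hb1
        have hab' : a % g (k + 1) ≤ a % g j := by
          rw [← Nat.mod_mod_of_dvd a (g_dvd hg hb1)]
          exact Nat.mod_le _ _
        obtain ⟨Z, hZ⟩ : g (k + 1) ∣ a % g j - a % g (k + 1) := by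
          rw [← Nat.mod_mod_of_dvd a (g_dvd hg hb1)]
          exact Nat.dvd_sub_mod _
        have hZ' : a % g j = g (k + 1) * Z + a % g (k + 1) := by omega
        have hZL : Z + h ≤ L := by
          by_contra hcon
          have hcon : L + 1 ≤ Z + h := by omega
          have t1 : g (k + 1) * (L + 1) ≤ g (k + 1) * (Z + h) := Nat.mul_le_mul_left _ hcon
          have t2 : g (k + 1) * (L + 1) = g j + g (k + 1) := by rw [hL]; ring
          have t3 : g (k + 1) * (Z + h) = g (k + 1) * Z + h * g (k + 1) := by ring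
          -- g j + g_b ≤ Z g_b + h g_b; m7: Z g_b + h + (h+1) q ≤ g j
          have t4 : g (k + 1) + h + (h + 1) * q ≤ h * g (k + 1) := by omega
          have t5 : (h + 1) * (h * g (k + 1)) ≤ (h + 1) * (h * q + g (k + 1)) :=
            Nat.mul_le_mul_left _ r6
          have t6 := Nat.mul_le_mul_left h t4
          have t7 : 2 * g (k + 1) ≤ h * g (k + 1) := Nat.mul_le_mul_right _ hh
          have t8 : (h + 1) * (h * g (k + 1)) = h * (h * g (k + 1)) + h * g (k + 1) := by ring
          have t9 : (h + 1) * (h * q + g (k + 1)) =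
            (h * h * q + h * q) + h * g (k + 1) + g (k + 1) := by ring
          have t10 : h * (g (k + 1) + h + (h + 1) * q) =
            h * g (k + 1) + h * h + (h * h * q + h * q) := by ring
          have t11 : 0 < h * h := Nat.mul_pos (by omega) (by omega)
          rw [t8, t9] at t5
          rw [t10] at t6
          omega
        have u1 : g (k + 1) * (Z + h) ≤ g (k + 1) * L := Nat.mul_le_mul_left _ hZL
        have u2 : g (k + 1) * (Z + h) = g (k + 1) * Z + h * g (k + 1) := by ring
        rw [hZ', hL]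
        omega

end nec

/-- **Main theorem.** Let `h ≥ 2`, let `W` be a partition of `ℕ` into `h` parts and let `g` be a
`𝒢`-adic sequence. Assume `h = 2`, or that all quotients `g_{j+1} / g_j` are at least `h`.
The elements whose removal from `A = {0} ∪ ⋃ A_𝒢(W_i)` leaves an asymptotic basis of order `h` are
exactly `0` and those `a ∈ A_𝒢(W_i)` for which either the complement of `W_i` is finite, or every
`j ∉ W_i` satisfies `g_{j+1} = h g_j` and is immediately preceded by a nonempty run
`[b, j) ⊆ W_i` with `(a mod g_j) - (a mod g_b) ≤ g_j - h g_b`. -/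
theorem result (h : ℕ) (hh : 2 ≤ h) (W : Fin h → Set ℕ) (hW : IsPartition W)
    (g : ℕ → ℕ) (hg : IsGAdic g) (hd : h = 2 ∨ ∀ j, h ≤ g (j + 1) / g j) :
    {a | a ∈ fullSet g W ∧ IsAsymptoticBasis h (fullSet g W \ {a})} =
      {0} ∪ ⋃ i, {a | a ∈ AG g (W i) ∧ ((W i)ᶜ.Finite ∨
        ∀ j, j ∉ W i → g (j + 1) = h * g j ∧
          ∃ b, b < j ∧ Set.Ico b j ⊆ W i ∧ a % g j + h * g b ≤ g j + a % g b)} := by
  have hd : ∀ j, h ≤ g (j + 1) / g j := by
    rcases hd with hd | hd
    · intro j
      rw [hd]
      exact two_le_D hg j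
    · exact hd
  ext a
  simp only [Set.mem_ofPred_eq, Set.mem_union, Set.mem_singleton_iff, Set.mem_iUnion]
  constructor
  · rintro ⟨ha, hb⟩
    rcases ha with ha | ha
    · left; simpa using ha
    · right
      obtain ⟨i, hi⟩ := Set.mem_iUnion.1 ha
      refine ⟨i, hi, ?_⟩
      by_cases hfin : (W i)ᶜ.Finite
      · exact Or.inl hfin
      · exact Or.inr (cond_of_removable hg hh hW hd hi hfin hb)
  · rintro (rfl | ⟨i, hi, hfin | hc⟩)
    · exact ⟨Or.inl rfl, removable_zero hg hW⟩
    · exact ⟨Or.inr (Set.mem_iUnion.2 ⟨i, hi⟩), removable_of_finite hg hW hi hfin⟩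
    · exact ⟨Or.inr (Set.mem_iUnion.2 ⟨i, hi⟩), removable_of_cond hg hh hW hd hi hc⟩

end Pool.Agent.Results.MP_fbe023_nt.LargeQuotients
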