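import Pool.Agent.Lib_MP_fbe023_h3.OneC

set_option autoImplicit false

namespace Pool.Agent.Results.MP_fbe023_nt.ThreeParts

open Finset hiding val
open Pool.Agent.Results.MP_fbe023_nt.LargeQuotients
open Pool.Agent.Lib_MP_fbe023_h3

/-- The type `(c, c, c')` is universal for `a`: with `w_b(j)` the largest element of
`{0} ∪ A_𝒢(W_b)` below `g_j`, one has
`(a mod g_j) + ∑_{b ≠ i} w_b(j) ≤ 2 w_c(j) + w_{c'}(j)` for all `j`. -/
def Universal (g : ℕ → ℕ) (W : Fin 3 → Set ℕ) (i : Fin 3) (a : ℕ) (c c' : Fin 3) : Prop :=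
  ∀ j, a % g j + ∑ b ∈ univ.erase i, wt g (W b) j ≤ 2 * wt g (W c) j + wt g (W c') j

/-- **Main theorem (`h = 3`).** Let `W` be a partition of `ℕ` into three parts and let `g` be an
arbitrary `𝒢`-adic sequence. The set of all `a` that can be removed from the basis
`A = {0} ∪ ⋃ A_𝒢(W_i)` of order `3` consists of `0` and the `a ∈ A_𝒢(W_i)` such that
the complement of `W_i` is finite, or the type `(i, i, i)` is universal and `a` is not exceptional,
or some other type `(c, c, c')` is universal and, if `a = 1`, `Chain g W i c'` holds. -/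
theorem result (W : Fin 3 → Set ℕ) (hW : IsPartition W) (g : ℕ → ℕ) (hg : IsGAdic g) :
    {a | a ∈ fullSet g W ∧ IsAsymptoticBasis 3 (fullSet g W \ {a})} =
      {0} ∪ ⋃ i, {a | a ∈ AG g (W i) ∧ ((W i)ᶜ.Finite ∨
        (Universal g W i a i i ∧ ¬ Exceptional g W i a) ∨
        ∃ c c', ¬ (c = i ∧ c' = i) ∧ Universal g W i a c c' ∧ (a = 1 → Chain g W i c'))} := by
  have hbr : ∀ (i : Fin 3) (j : ℕ), ∑ b ∈ univ.erase i, wt g (W b) j + wt g (W i) j + 1 = g j := by
    intro i j
    have h1 := sum_wt hg hW j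
    rw [← Finset.add_sum_erase _ _ (Finset.mem_univ i)] at h1
    omega
  have hiff : ∀ i a c c', Universal g W i a c c' ↔
      ∀ j, a % g j + g j ≤ 2 * wt g (W c) j + wt g (W c') j + wt g (W i) j + 1 := by
    intro i a c c'
    constructor
    · intro h j
      have e1 := h j
      have e2 := hbr i j
      omega
    · intro h j
      have e1 := h j
      have e2 := hbr i j
      omega
  ext a
  simp only [Set.mem_ofPred_eq, Set.mem_union, Set.mem_singleton_iff, Set.mem_iUnion]
  constructor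
  · rintro ⟨ha, hb⟩
    rcases ha with ha | ha
    · left; simpa using ha
    right
    obtain ⟨i, hi⟩ := Set.mem_iUnion.1 ha
    refine ⟨i, hi, ?_⟩
    by_cases hfin : (W i)ᶜ.Finite
    · exact Or.inl hfin
    right
    obtain ⟨c, c', h⟩ := nec_U hg hW hi hfin hb
    by_cases hcc : c = i ∧ c' = i
    · obtain ⟨rfl, rfl⟩ := hcc
      exact Or.inl ⟨(hiff _ _ _ _).2 h, nec_E hg hW hi hb⟩
    · refine Or.inr ⟨c, c', hcc, (hiff _ _ _ _).2 h, ?_⟩
      intro ha1
      subst ha1
      have hc := type_one hg hW hi h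
      subst hc
      exact nec_Chain hg hW hi (fun h' => hcc ⟨rfl, h'.symm⟩) h hb
  · rintro (rfl | ⟨i, hi, hfin | ⟨hU, hE⟩ | ⟨c, c', hcc, hU, hC⟩⟩)
    · exact ⟨Or.inl rfl, removable_zero hg hW⟩
    · exact ⟨Or.inr (Set.mem_iUnion.2 ⟨i, hi⟩), removable_of_finite hg hW hi hfin⟩
    · refine ⟨Or.inr (Set.mem_iUnion.2 ⟨i, hi⟩), ?_⟩
      have hU' := (hiff _ _ _ _).1 hU
      refine suff_ii hg hW hi (fun p hp => ?_) hU' hE
      by_cases ha1 : a = 1
      · subst ha1
        exact splitEv_ii hg hW hi hU' (Ne.symm hp)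
      · have h0 := ((mem_AG hg).1 hi).1
        exact splitEv_of_two hg hW hi (by omega) hp
    · refine ⟨Or.inr (Set.mem_iUnion.2 ⟨i, hi⟩), ?_⟩
      have hU' := (hiff _ _ _ _).1 hU
      refine suff_other hg hW hi hcc (fun hc => ?_) hU'
      subst hc
      have hc' : c ≠ c' := fun h => hcc ⟨rfl, h.symm⟩
      by_cases ha1 : a = 1
      · subst ha1
        exact splitEv_ip hg hW hi hc' hU' (hC rfl)
      · have h0 := ((mem_AG hg).1 hi).1
        exact splitEv_of_two hg hW hi (by omega) (Ne.symm hc')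

end Pool.Agent.Results.MP_fbe023_nt.ThreeParts
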